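import Pool.Agent.Lib.MP_afdd4d_co.K9.PE.Main
import Pool.Agent.Lib.MP_afdd4d_co.MC.Sharp

namespace Pool.Agent.Results.MP_afdd4d_co.NearestEvenGiraud

open Finset

/-- Giraud's family of a colouring `χ` and a relation `M`: the 4-element sets with one or three
elements of colour `true`, and the 4-element sets with two elements `x`, `x'` of colour `true` and
two elements `y`, `y'` of colour `false` for which `M` holds for an odd number of the four pairs
`(x, y)`, `(x, y')`, `(x', y)`, `(x', y')`. -/
def Giraud {n : ℕ} (χ : Fin n → Bool) (M : Fin n → Fin n → Bool) : Finset (Finset (Fin n)) :=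
  (univ.powersetCard 4).filter fun e => Odd (e.filter fun x => χ x = true).card ∨
    ((e.filter fun x => χ x = true).card = 2 ∧
      Odd ((e ×ˢ e).filter fun p => χ p.1 = true ∧ χ p.2 = false ∧ M p.1 p.2 = true).card)

/-- `E` consists of 4-element sets, and every 5-element set contains an even number of members of
`E`. -/
def EvenFamily {n : ℕ} (E : Finset (Finset (Fin n))) : Prop :=
  (∀ e ∈ E, e.card = 4) ∧
    ∀ S : Finset (Fin n), S.card = 5 → Even ((S.powersetCard 4).filter fun e => e ∈ E).card

open Pool.Agent.Lib.MP_afdd4d_co in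
/-- For every `ε > 0` and all large `n`: let `H` be a family of 4-element subsets of an `n`-element
set such that no five elements span all five 4-element sets, and let Giraud's family `G` of some `χ`
and `M` be nearest to `H` among all even families of 4-element sets.  Then the size of `H` plus the
number of sets in which `H` differs from `G` divided by 421 is at most `(11/16 + ε) (n choose 4)`
plus twice the difference of `11/16 (n choose 4)` and the size of `G`.  Giraud's families are even
and satisfy the hypothesis, and some of them have at least `(11/16 - ε) (n choose 4)` members. -/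
theorem result :
    (∀ ε : ℝ, 0 < ε → ∃ N : ℕ, ∀ n : ℕ, N ≤ n → ∀ H : Finset (Finset (Fin n)),
      (∀ e ∈ H, e.card = 4) →
      (∀ S : Finset (Fin n), S.card = 5 → ∃ e ∈ S.powersetCard 4, e ∉ H) →
      ∀ (χ : Fin n → Bool) (M : Fin n → Fin n → Bool),
        (∀ E : Finset (Finset (Fin n)), EvenFamily E →
          (symmDiff H (Giraud χ M)).card ≤ (symmDiff H E).card) →
        (H.card : ℝ) + ((symmDiff H (Giraud χ M)).card : ℝ) / 421 ≤
          (11 / 16 + ε) * ((n.choose 4 : ℕ) : ℝ) +
            2 * (11 / 16 * ((n.choose 4 : ℕ) : ℝ) - ((Giraud χ M).card : ℝ))) ∧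
    (∀ (n : ℕ) (χ : Fin n → Bool) (M : Fin n → Fin n → Bool), EvenFamily (Giraud χ M) ∧
      (∀ S : Finset (Fin n), S.card = 5 → ∃ e ∈ S.powersetCard 4, e ∉ Giraud χ M)) ∧
    (∀ ε : ℝ, 0 < ε → ∃ N : ℕ, ∀ n : ℕ, N ≤ n → ∃ χ : Fin n → Bool,
      ∃ M : Fin n → Fin n → Bool,
        (11 / 16 - ε) * ((n.choose 4 : ℕ) : ℝ) ≤ ((Giraud χ M).card : ℝ)) := by
  refine ⟨?_, ?_, MC.Gir_large⟩
  · intro ε hε
    obtain ⟨N, hN⟩ := K9.PE.main ε hε
    refine ⟨N, fun n hn H hH hK χ M hE => ?_⟩
    have h := hN n hn H χ M hH hK fun E h4 he => hE E ⟨h4, he⟩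
    rw [div_eq_mul_one_div, mul_comm _ (1 / 421 : ℝ)]
    exact h
  · intro n χ M
    refine ⟨⟨MC.Gir_card4 χ M, ?_⟩, MC.Gir_free χ M⟩
    intro S hS
    have h1 := K9.Star.evenH_gir χ (fun a b => M b a) (fun _ => false) (fun _ => false)
    rw [K9.Star.Tw.gir_eq_Gir] at h1
    exact h1 S hS

end Pool.Agent.Results.MP_afdd4d_co.NearestEvenGiraud
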